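import Mathlib

set_option autoImplicit false

namespace Pool.Agent.Hb5c5

/-- the norm form, of discriminant five -/
def nf (x y : ℤ) : ℤ := x ^ 2 - 2001 * x * y + 1000999 * y ^ 2

noncomputable def xi (s x y : ℝ) : ℝ := x - (2001 + s) / 2 * y
noncomputable def eta (s x y : ℝ) : ℝ := x - (2001 - s) / 2 * y

lemma xi_eta {s : ℝ} (hs : s ^ 2 = 5) (x y : ℤ) : xi s x y * eta s x y = (nf x y : ℤ) := by
  unfold xi eta nf; push_cast; linear_combination (-(y : ℝ) ^ 2 / 4) * hs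

lemma s_bounds {s : ℝ} (hs : s ^ 2 = 5) (h0 : 0 < s) : 2.236 < s ∧ s < 2.237 := by
  constructor <;> nlinarith

lemma unit_pow {s : ℝ} (hs : s ^ 2 = 5) (h0 : 0 < s) (k : ℤ) :
    ∃ x y : ℤ, xi s x y = ((3 + s) / 2) ^ k ∧ nf x y = 1 := by
  have hε : (3 + s) / 2 ≠ 0 := by positivity
  induction k using Int.induction_on with
  | zero => exact ⟨1, 0, by simp [xi], by simp [nf]⟩
  | succ i ih =>
    obtain ⟨x, y, h1, h2⟩ := ih
    refine ⟨1000999 * y - 999 * x, 1002 * y - x, ?_, ?_⟩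
    · rw [zpow_add_one₀ hε, ← h1]; unfold xi; push_cast
      linear_combination ((y : ℝ) / 4) * hs
    · rw [← h2]; unfold nf; ring
  | pred i ih =>
    obtain ⟨x, y, h1, h2⟩ := ih
    refine ⟨1002 * x - 1000999 * y, x - 999 * y, ?_, ?_⟩
    · rw [zpow_sub_one₀ hε, ← h1, eq_mul_inv_iff_mul_eq₀ hε]; unfold xi; push_cast
      linear_combination (-((x : ℝ) - 999 * y) / 4) * hs
    · rw [← h2]; unfold nf; ring

lemma unit_pos {s : ℝ} (hs : s ^ 2 = 5) (h0 : 0 < s) (t : ℝ) (ht : 0 < t) :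
    ∃ x y : ℤ, xi s x y < t ∧ t < 3 * xi s x y ∧ nf x y = 1 := by
  have hb := s_bounds hs h0
  obtain ⟨n, h1, h2⟩ := exists_mem_Ioc_zpow ht (by linarith : 1 < (3 + s) / 2)
  obtain ⟨x, y, h3, h4⟩ := unit_pow hs h0 n
  rw [zpow_add_one₀ (by positivity)] at h2
  have hp : 0 < ((3 + s) / 2) ^ n := by positivity
  refine ⟨x, y, by rw [h3]; exact h1, by rw [h3]; nlinarith, h4⟩

lemma unit_neg {s : ℝ} (hs : s ^ 2 = 5) (h0 : 0 < s) (t : ℝ) (ht : 0 < t) :
    ∃ x y : ℤ, xi s x y < t ∧ t < 3 * xi s x y ∧ nf x y = -1 := by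
  have hφ : 0 < (1 + s) / 2 := by positivity
  obtain ⟨x, y, h1, h2, h3⟩ := unit_pos hs h0 (t / ((1 + s) / 2)) (by positivity)
  have e : xi s ((1000999 * y - 1000 * x : ℤ) : ℝ) ((1001 * y - x : ℤ) : ℝ) =
      xi s x y * ((1 + s) / 2) := by
    unfold xi; push_cast; linear_combination ((y : ℝ) / 4) * hs
  rw [lt_div_iff₀ hφ] at h1
  rw [div_lt_iff₀ hφ] at h2
  refine ⟨1000999 * y - 1000 * x, 1001 * y - x, by rw [e]; exact h1, by rw [e]; linarith, ?_⟩
  rw [← h3]; unfold nf; ring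

lemma mem_int (S : Set (ℝ × ℝ)) (u z : ℝ × ℝ) (hu : u ∈ S) (h3u : (3 : ℝ) • u ∈ S)
    (h3z : (3 : ℝ) • z ∈ S) (hd : u.1 * z.2 - u.2 * z.1 ≠ 0) :
    u + z ∈ interior (convexHull ℝ S) := by
  set D := u.1 * z.2 - u.2 * z.1 with hD
  let α : ℝ × ℝ → ℝ := fun p => (p.1 * z.2 - p.2 * z.1) / D
  let β : ℝ × ℝ → ℝ := fun p => (u.1 * p.2 - u.2 * p.1) / D
  have hα : Continuous α := by fun_prop
  have hβ : Continuous β := by fun_prop
  refine mem_interior.mpr ⟨{p | 0 < 3 - α p - β p ∧ 0 < 3 * α p - 3 + β p ∧ 0 < β p}, ?_, ?_, ?_⟩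
  · rintro p ⟨h1, h2, h3⟩
    have := (convex_convexHull ℝ S).sum_mem (t := (Finset.univ : Finset (Fin 3)))
      (w := ![(3 - α p - β p) / 2, (3 * α p - 3 + β p) / 6, β p / 3])
      (z := ![u, (3 : ℝ) • u, (3 : ℝ) • z])
      (by intro i _; fin_cases i <;> simp <;> linarith)
      (by simp [Fin.sum_univ_three]; ring)
      (by
        intro i _
        fin_cases i
        · exact subset_convexHull ℝ S hu
        · exact subset_convexHull ℝ S h3u
        · exact subset_convexHull ℝ S h3z)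
    convert this using 1
    simp only [Fin.sum_univ_three, Matrix.cons_val_zero, Matrix.cons_val_one, Matrix.cons_val]
    ext
    · simp only [α, β, Prod.fst_add, Prod.smul_fst, smul_eq_mul]; field_simp; ring
    · simp only [α, β, Prod.snd_add, Prod.smul_snd, smul_eq_mul]; field_simp; ring
  · have o1 : IsOpen {p : ℝ × ℝ | 0 < 3 - α p - β p} := isOpen_lt continuous_const (by fun_prop)
    have o2 : IsOpen {p : ℝ × ℝ | 0 < 3 * α p - 3 + β p} := isOpen_lt continuous_const (by fun_prop)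
    exact o1.inter (o2.inter (isOpen_lt continuous_const hβ))
  · have e1 : α (u + z) = 1 := by
      simp only [α, Prod.fst_add, Prod.snd_add]; field_simp; ring
    have e2 : β (u + z) = 1 := by
      simp only [β, Prod.fst_add, Prod.snd_add]; field_simp; ring
    simp only [Set.mem_ofPred_eq, e1, e2]
    norm_num

lemma nf_ne_zero (x y : ℤ) (h : IsCoprime x y) : nf x y ≠ 0 := by
  intro h0
  have e : (2 * x - 2001 * y) ^ 2 = 5 * y ^ 2 := by unfold nf at h0; linear_combination 4 * h0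
  have h5 : Prime (5 : ℤ) := Int.prime_iff_natAbs_prime.mpr (by norm_num)
  obtain ⟨k, hk⟩ := h5.dvd_of_dvd_pow (⟨_, e⟩ : (5 : ℤ) ∣ (2 * x - 2001 * y) ^ 2)
  rw [hk] at e
  obtain ⟨j, hj⟩ := h5.dvd_of_dvd_pow (⟨k ^ 2, by linarith⟩ : (5 : ℤ) ∣ y ^ 2)
  have hx : (5 : ℤ) ∣ x := by omega
  have := h.isUnit_of_dvd' hx ⟨j, hj⟩
  rw [Int.isUnit_iff] at this
  omega

lemma nf_ne_two (x y : ℤ) : nf x y ≠ 2 ∧ nf x y ≠ -2 := by
  obtain ⟨a, ha⟩ : ∃ a, x = 2 * a ∨ x = 2 * a + 1 := ⟨x / 2, by omega⟩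
  obtain ⟨b, hb⟩ : ∃ b, y = 2 * b ∨ y = 2 * b + 1 := ⟨y / 2, by omega⟩
  rcases ha with rfl | rfl <;> rcases hb with rfl | rfl
  · have : nf (2 * a) (2 * b) = 4 * nf a b := by unfold nf; ring
    omega
  · have : nf (2 * a) (2 * b + 1) =
        2 * (2 * nf a b - 2001 * a + 2001998 * b + 500499) + 1 := by unfold nf; ring
    omega
  · have : nf (2 * a + 1) (2 * b) = 2 * (2 * nf a b + 2 * a - 2001 * b) + 1 := by unfold nf; ring
    omega
  · have : nf (2 * a + 1) (2 * b + 1) =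
        2 * (2 * nf a b - 1999 * a + 1999997 * b + 499499) + 1 := by unfold nf; ring
    omega

/-- integer points on the sail of an angle have norm of absolute value one -/
lemma sail_unit {s : ℝ} (hs : s ^ 2 = 5) (h0 : 0 < s) (σ τ : ℤ) (hσ : σ = 1 ∨ σ = -1)
    (hτ : τ = 1 ∨ τ = -1) (C : Set (ℝ × ℝ))
    (hC : ∀ w, w ∈ C ↔ 0 ≤ σ * xi s w.1 w.2 ∧ 0 ≤ τ * eta s w.1 w.2) (x y : ℤ)
    (hxy : IsCoprime x y)
    (h : ((x : ℝ), (y : ℝ)) ∈
      frontier (convexHull ℝ {w ∈ C | w ≠ 0 ∧ ∃ a b : ℤ, w = ((a : ℝ), (b : ℝ))})) :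
    nf x y = 1 ∨ nf x y = -1 := by
  by_contra hn
  push Not at hn
  have hσ2 : (σ : ℝ) ^ 2 = 1 := by rcases hσ with rfl | rfl <;> norm_num
  have hτ2 : (τ : ℝ) ^ 2 = 1 := by rcases hτ with rfl | rfl <;> norm_num
  have hCeq : C = {w : ℝ × ℝ | 0 ≤ σ * xi s w.1 w.2} ∩ {w | 0 ≤ τ * eta s w.1 w.2} := by
    ext w; rw [hC]; rfl
  have hcl : IsClosed C := by
    rw [hCeq]
    exact (isClosed_le continuous_const (by unfold xi; fun_prop)).inter
      (isClosed_le continuous_const (by unfold eta; fun_prop))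
  have hcv : Convex ℝ C := by
    intro p hp q hq a b ha hb _
    rw [hC] at hp hq ⊢
    have e1 := add_nonneg (mul_nonneg ha hp.1) (mul_nonneg hb hq.1)
    have e2 := add_nonneg (mul_nonneg ha hp.2) (mul_nonneg hb hq.2)
    simp only [xi, eta, Prod.fst_add, Prod.snd_add, Prod.smul_fst, Prod.smul_snd, smul_eq_mul]
      at e1 e2 ⊢
    constructor
    · exact e1.trans_eq (by ring)
    · exact e2.trans_eq (by ring)
  have hv : ((x : ℝ), (y : ℝ)) ∈ C :=
    closure_minimal (convexHull_min (fun w hw => hw.1) hcv) hcl h.1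
  rw [hC] at hv
  simp only at hv
  have hprod : (σ * xi s x y) * (τ * eta s x y) = ((σ * τ * nf x y : ℤ) : ℝ) := by
    push_cast; rw [← xi_eta hs]; ring
  have h3 : 3 ≤ σ * τ * nf x y := by
    have h1 : (0 : ℝ) ≤ ((σ * τ * nf x y : ℤ) : ℝ) := by rw [← hprod]; exact mul_nonneg hv.1 hv.2
    have h2 : 0 ≤ σ * τ * nf x y := by exact_mod_cast h1
    have := nf_ne_zero x y hxy
    have := nf_ne_two x y
    rcases hσ with rfl | rfl <;> rcases hτ with rfl | rfl <;> omega
  have h3' : (3 : ℝ) ≤ (σ * xi s x y) * (τ * eta s x y) := by rw [hprod]; exact_mod_cast h3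
  have ht : 0 < σ * xi s x y := by
    rcases hv.1.lt_or_eq with h1 | h1
    · exact h1
    · rw [← h1] at h3'; norm_num at h3'
  obtain ⟨a, b, h1, h2, h4⟩ : ∃ a b : ℤ, xi s a b < σ * xi s x y ∧ σ * xi s x y < 3 * xi s a b ∧
      nf a b = σ * τ := by
    have : σ * τ = 1 ∨ σ * τ = -1 := by
      rcases hσ with rfl | rfl <;> rcases hτ with rfl | rfl <;> norm_num
    rcases this with h5 | h5 <;> rw [h5]
    · exact unit_pos hs h0 _ ht
    · exact unit_neg hs h0 _ ht
  have hξ : 0 < xi s a b := by linarith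
  have hu : xi s a b * (σ * τ * eta s a b) = 1 := by
    have := xi_eta hs a b
    rw [h4] at this
    push_cast at this
    calc xi s a b * (σ * τ * eta s a b) = σ * τ * (xi s a b * eta s a b) := by ring
      _ = σ ^ 2 * τ ^ 2 := by rw [this]; ring
      _ = 1 := by rw [hσ2, hτ2, one_mul]
  have hη : 0 < σ * τ * eta s a b := (pos_iff_pos_of_mul_pos (by rw [hu]; norm_num)).mp hξ
  have hlt : σ * τ * eta s a b < τ * eta s x y := by
    by_contra hc
    push Not at hc
    nlinarith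
  have hdet : a * y - b * x ≠ 0 := by
    intro hd
    obtain ⟨p, q, hpq⟩ := hxy
    have hk : σ * τ * ((a - 2001 * b) * x + 1000999 * b * y) * (p * a + q * b) = 1 := by
      have h6 : (σ * τ) ^ 2 = 1 := by
        rcases hσ with rfl | rfl <;> rcases hτ with rfl | rfl <;> norm_num
      unfold nf at h4
      linear_combination (σ * τ * (p * x + q * y)) * h4 + (p * x + q * y) * h6 + hpq
        + σ * τ * (1000999 * b * p - (a - 2001 * b) * q) * hd
    have hk2 : (p * a + q * b) ^ 2 = 1 := by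
      rcases Int.eq_one_or_neg_one_of_mul_eq_one' hk with h7 | h7 <;> rw [h7.2] <;> norm_num
    have ea : a = (p * a + q * b) * x := by linear_combination -a * hpq + q * hd
    have eb : b = (p * a + q * b) * y := by linear_combination -b * hpq - p * hd
    have : nf a b = nf x y := by
      calc nf a b = nf ((p * a + q * b) * x) ((p * a + q * b) * y) := by rw [← ea, ← eb]
        _ = (p * a + q * b) ^ 2 * nf x y := by unfold nf; ring
        _ = nf x y := by rw [hk2, one_mul]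
    rcases hσ with rfl | rfl <;> rcases hτ with rfl | rfl <;> omega
  have hmem : ∀ (c d : ℤ), 0 < σ * xi s c d → 0 < τ * eta s c d →
      ((c : ℝ), (d : ℝ)) ∈ {w ∈ C | w ≠ 0 ∧ ∃ a b : ℤ, w = ((a : ℝ), (b : ℝ))} := by
    intro c d h1 h2
    refine ⟨(hC _).mpr ⟨h1.le, h2.le⟩, ?_, c, d, rfl⟩
    intro h
    have hc : (c : ℝ) = 0 := congrArg Prod.fst h
    have hd : (d : ℝ) = 0 := congrArg Prod.snd h
    rw [hc, hd] at h1
    simp [xi] at h1
  have m1 := hmem (σ * a) (σ * b)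
    (hξ.trans_eq (by
      unfold xi; push_cast; linear_combination -((a : ℝ) - (2001 + s) / 2 * b) * hσ2))
    (hη.trans_eq (by unfold eta; push_cast; ring))
  have m2 := hmem (3 * (σ * a)) (3 * (σ * b))
    ((mul_pos three_pos hξ).trans_eq (by
      unfold xi; push_cast; linear_combination -3 * ((a : ℝ) - (2001 + s) / 2 * b) * hσ2))
    ((mul_pos three_pos hη).trans_eq (by unfold eta; push_cast; ring))
  have m3 := hmem (3 * (x - σ * a)) (3 * (y - σ * b))
    ((mul_pos three_pos (sub_pos.mpr h1)).trans_eq (by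
      unfold xi; push_cast; linear_combination 3 * ((a : ℝ) - (2001 + s) / 2 * b) * hσ2))
    ((mul_pos three_pos (sub_pos.mpr hlt)).trans_eq (by unfold eta; push_cast; ring))
  have := mem_int _ (((σ * a : ℤ) : ℝ), ((σ * b : ℤ) : ℝ))
    (((x - σ * a : ℤ) : ℝ), ((y - σ * b : ℤ) : ℝ)) m1
    (by convert m2 using 1; ext <;> simp)
    (by convert m3 using 1; ext <;> simp)
    (by
      have : ((σ * (a * y - b * x) : ℤ) : ℝ) ≠ 0 := by
        have : σ ≠ 0 := by omega
        exact_mod_cast mul_ne_zero this hdet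
      convert this using 1
      push_cast; ring)
  apply h.2
  convert this using 1
  ext <;> simp

end Pool.Agent.Hb5c5
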