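import Mathlib
import Pool.Agent.H.MP_b5c594_nt.A

set_option autoImplicit false

namespace Pool.Agent.Hb5c5

lemma T_lb (x1 y1 x2 y2 : ℤ) (n1 : nf x1 y1 = 1 ∨ nf x1 y1 = -1)
    (n2 : nf x2 y2 = 1 ∨ nf x2 y2 = -1) :
    1991998 ≤ |10 * x1 * x2 + 2 * 1000999 *
      (2 * x1 * x2 - 2001 * (x1 * y2 + x2 * y1) + 2 * 1000999 * y1 * y2)| := by
  set t := 2 * x1 * x2 - 2001 * (x1 * y2 + x2 * y1) + 2002003 * y1 * y2 with ht
  set k := 2001 * y1 * y2 - (x1 * y2 + x2 * y1) with hk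
  have e1 : t ^ 2 - 5 * k ^ 2 = 4 * (nf x1 y1 * nf x2 y2) := by rw [ht, hk]; unfold nf; ring
  have e2 : 10 * x1 * x2 + 2 * 1000999 *
      (2 * x1 * x2 - 2001 * (x1 * y2 + x2 * y1) + 2 * 1000999 * y1 * y2) =
      2002003 * t - 10005 * k := by rw [ht, hk]; ring
  rw [e2]
  have e3 : t ^ 2 - 5 * k ^ 2 = 4 ∨ t ^ 2 - 5 * k ^ 2 = -4 := by
    rcases n1 with h | h <;> rcases n2 with h' | h' <;> rw [e1, h, h'] <;> norm_num
  clear_value t k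
  have ht0 : t ≠ 0 := by
    rintro rfl
    omega
  have ht1 : 1 ≤ t ^ 2 := by have := sq_pos_of_ne_zero ht0; omega
  have hkt : |k| ≤ |t| := sq_le_sq.mp (by omega)
  rw [le_abs]
  rcases abs_cases t with h | h <;> rcases abs_cases k with h' | h' <;> omega

lemma lower_real (s e E σ δ u T n : ℝ) (hs : s ^ 2 = 5) (h0 : 0 < s) (hσ : σ = 1 ∨ σ = -1)
    (hE : 10 ^ 8 ≤ E) (he : e * E ^ 2 ≤ 2002) (hδ : |δ| ≤ 1002001 * e)
    (hn : n = 1 ∨ n = -1) (hq : δ * (δ - σ * s) = n * u ^ 2) (hT : 995999 ≤ |T|)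
    (h3 : |T * u - 2 * 1000999 * δ| ≤ 5 * e) : 99 * E ^ 2 * |u| ≤ 1 := by
  have hb := s_bounds hs h0
  have hE2 : (10 : ℝ) ^ 16 ≤ E ^ 2 := by nlinarith
  have he0 : 0 ≤ e := by nlinarith [abs_nonneg δ]
  have he1 : e * 10 ^ 16 ≤ 2002 := by nlinarith
  have hδ1 : |δ| ≤ 1 / 10 ^ 6 := by nlinarith
  have hδ2 := abs_le.mp hδ1
  have a1 : |δ| * |δ - σ * s| = |u| ^ 2 := by
    rw [← abs_mul, hq, abs_mul, abs_pow]
    rcases hn with rfl | rfl <;> simp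
  have a2 : 2 ≤ |δ - σ * s| := by
    rw [le_abs]; rcases hσ with rfl | rfl
    · right; linarith
    · left; linarith
  have a3 : |δ - σ * s| ≤ 3 := by
    rw [abs_le]; rcases hσ with rfl | rfl <;> constructor <;> linarith
  have hu0 := abs_nonneg u
  have a4 : 2 * |δ| ≤ |u| ^ 2 := by nlinarith [abs_nonneg δ]
  have a5 : |u| ≤ 1 / 500 := by
    have : |u| ^ 2 ≤ (1 / 500) ^ 2 := by nlinarith [abs_nonneg δ]
    exact (abs_le_of_sq_le_sq' this (by norm_num)).2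
  have a6 : |T| * |u| ≤ 5 * e + 2 * 1000999 * |δ| := by
    have := abs_add_le (T * u - 2 * 1000999 * δ) (2 * 1000999 * δ)
    rw [sub_add_cancel, abs_mul, abs_mul (2 * 1000999) δ,
      abs_of_pos (by norm_num : (0 : ℝ) < 2 * 1000999)] at this
    linarith
  have a7 : 993997 * |u| ≤ 5 * e := by nlinarith
  have a8 := mul_le_mul_of_nonneg_right a7 (by positivity : 0 ≤ E ^ 2)
  nlinarith

lemma lower {s : ℝ} (hs : s ^ 2 = 5) (h0 : 0 < s) (x1 y1 x2 y2 : ℤ)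
    (n1 : nf x1 y1 = 1 ∨ nf x1 y1 = -1) (n2 : nf x2 y2 = 1 ∨ nf x2 y2 = -1)
    (hd : x1 * y2 - x2 * y1 ≠ 0) (N E e σ : ℝ) (hσ : σ = 1 ∨ σ = -1)
    (hx1 : |(x1 : ℝ)| ≤ N) (hx2 : |(x2 : ℝ)| ≤ N) (hN : N < 3003 * E) (hE : 10 ^ 8 ≤ E)
    (he : e * E ^ 2 ≤ 2002)
    (k1 : |(y1 : ℝ) * y2 / (x1 * y2 - x2 * y1) - σ * (1 / s)| ≤ e)
    (k2 : |-((y1 : ℝ) * x2 + x1 * y2) / (x1 * y2 - x2 * y1) - σ * (-2001 / s)| ≤ e)
    (k3 : |(x1 : ℝ) * x2 / (x1 * y2 - x2 * y1) - σ * (1000999 / s)| ≤ e) : False := by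
  have hb := s_bounds hs h0
  have hd' : ((x1 : ℝ) * y2 - x2 * y1) ≠ 0 := by exact_mod_cast hd
  have hσ2 : σ ^ 2 = 1 := by rcases hσ with rfl | rfl <;> norm_num
  have hinv : 1 / s = s / 5 := by field_simp; linarith
  have i2 : -2001 / s = -2001 * (s / 5) := by rw [← hinv]; ring
  have i3 : 1000999 / s = 1000999 * (s / 5) := by rw [← hinv]; ring
  rw [hinv] at k1
  rw [i2] at k2
  rw [i3] at k3
  obtain ⟨u, hu⟩ : ∃ u : ℝ, u = 1 / ((x1 : ℝ) * y2 - x2 * y1) := ⟨_, rfl⟩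
  have hud : u * ((x1 : ℝ) * y2 - x2 * y1) = 1 := by rw [hu]; field_simp
  rw [div_eq_mul_one_div, ← hu] at k1 k2 k3
  have b1 := abs_le.mp k1
  have b2 := abs_le.mp k2
  have b3 := abs_le.mp k3
  have hT := T_lb x1 y1 x2 y2 n1 n2
  have hT' : (1991998 : ℝ) ≤ |10 * (x1 : ℝ) * x2 + 2 * 1000999 *
      (2 * x1 * x2 - 2001 * (x1 * y2 + x2 * y1) + 2 * 1000999 * y1 * y2)| := by exact_mod_cast hT
  have hn : ((nf x1 y1 * nf x2 y2 : ℤ) : ℝ) = 1 ∨ ((nf x1 y1 * nf x2 y2 : ℤ) : ℝ) = -1 := by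
    rcases n1 with h | h <;> rcases n2 with h' | h' <;> rw [h, h'] <;> norm_num
  have key := lower_real s e E σ
    ((2 * x1 * x2 - 2001 * (x1 * y2 + x2 * y1) + 2 * 1000999 * y1 * y2) / 2 * u + σ * s / 2) u
    ((10 * (x1 : ℝ) * x2 + 2 * 1000999 *
      (2 * x1 * x2 - 2001 * (x1 * y2 + x2 * y1) + 2 * 1000999 * y1 * y2)) / 2) _ hs h0 hσ hE he
    (by
      have he0 : 0 ≤ e := (abs_nonneg _).trans k1
      rw [abs_le]; constructor <;> linarith [b1.1, b1.2, b2.1, b2.2, b3.1, b3.2])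
    hn
    (by
      unfold nf; push_cast
      linear_combination (-(s ^ 2) / 4) * hσ2 - (1 / 4) * hs
        + (5 / 4) * (u * ((x1 : ℝ) * y2 - x2 * y1) + 1) * hud)
    (by rw [abs_div, abs_two, le_div_iff₀ two_pos]; exact le_trans (by norm_num) hT')
    (by rw [abs_le]; constructor <;> linarith [b3.1, b3.2])
  have hE2 : (10 : ℝ) ^ 16 ≤ E ^ 2 := by nlinarith
  have he0 : 0 ≤ e := (abs_nonneg _).trans k1
  have he1 : e ≤ 1 := by nlinarith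
  have c1 : 447000 ≤ |(x1 : ℝ) * x2 * u| := by
    rw [le_abs]; rcases hσ with rfl | rfl
    · left; linarith [b3.1]
    · right; linarith [b3.2]
  rw [abs_mul, abs_mul] at c1
  have c2 : |(x1 : ℝ)| * |(x2 : ℝ)| ≤ (3003 * E) * (3003 * E) :=
    mul_le_mul (by linarith) (by linarith) (abs_nonneg _) (by linarith)
  have c3 := mul_le_mul_of_nonneg_right c2 (abs_nonneg u)
  nlinarith

lemma upper_real (s E F u : ℝ) (hs : s ^ 2 = 5) (h0 : 0 < s) (hE : 10 ^ 8 ≤ E) (hF : E * F = 1)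
    (hu : u * (E ^ 2 + F ^ 2) = 1) :
    |2 * s / 5 * F ^ 2 * u| ≤ 2002 / E ^ 2 ∧
    |(-2 + 4002 * s / 5 * F ^ 2) * u| ≤ 2002 / E ^ 2 ∧
    |(2001 - 2001998 * s / 5 * F ^ 2) * u| ≤ 2002 / E ^ 2 := by
  have hb := s_bounds hs h0
  have hE0 : 0 < E := by linarith
  have hF0 : 0 < F := (pos_iff_pos_of_mul_pos (by rw [hF]; norm_num)).mp hE0
  have hF1 : F ≤ 1 / 10 ^ 8 := by nlinarith
  have hF2 : F ^ 2 ≤ 1 / 10 ^ 16 := by nlinarith
  have hsF : s * F ^ 2 ≤ 3 / 10 ^ 16 := by nlinarith [sq_nonneg F]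
  have hsF0 : 0 ≤ s * F ^ 2 := by positivity
  have hu0 : 0 < u := (pos_iff_pos_of_mul_pos (by rw [hu]; norm_num)).mpr (by positivity)
  have hu1 : u ≤ 1 / E ^ 2 := by
    rw [le_div_iff₀ (by positivity)]; nlinarith [mul_pos hu0 (pow_pos hF0 2)]
  have fin : ∀ c : ℝ, |c| ≤ 2002 → |c * u| ≤ 2002 / E ^ 2 := by
    intro c hc
    rw [abs_mul, abs_of_pos hu0, div_eq_mul_one_div]
    exact mul_le_mul hc hu1 hu0.le (by norm_num)
  refine ⟨fin _ ?_, fin _ ?_, fin _ ?_⟩ <;> rw [abs_le] <;> constructor <;> linarith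

lemma upper {s : ℝ} (hs : s ^ 2 = 5) (h0 : 0 < s) (N : ℝ) (hN : 10 ^ 12 ≤ N) :
    ∃ (x1 y1 x2 y2 : ℤ) (E : ℝ), IsCoprime x1 y1 ∧ IsCoprime x2 y2 ∧ x1 * y2 - x2 * y1 ≠ 0 ∧
      |(x1 : ℝ)| ≤ N ∧ |(y1 : ℝ)| ≤ N ∧ |(x2 : ℝ)| ≤ N ∧ |(y2 : ℝ)| ≤ N ∧ N < 3003 * E ∧
      10 ^ 8 ≤ E ∧ |1 / s - (y1 : ℝ) * y2 / (x1 * y2 - x2 * y1)| ≤ 2002 / E ^ 2 ∧
      |-2001 / s - -((y1 : ℝ) * x2 + x1 * y2) / (x1 * y2 - x2 * y1)| ≤ 2002 / E ^ 2 ∧
      |1000999 / s - (x1 : ℝ) * x2 / (x1 * y2 - x2 * y1)| ≤ 2002 / E ^ 2 := by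
  have hb := s_bounds hs h0
  obtain ⟨a, b, h1, h2, h3⟩ := unit_pos hs h0 (N / 1001) (by positivity)
  have hEF := xi_eta hs a b
  rw [h3] at hEF
  push_cast at hEF
  obtain ⟨E, hE⟩ : ∃ E, E = xi s a b := ⟨_, rfl⟩
  obtain ⟨F, hF⟩ : ∃ F, F = eta s a b := ⟨_, rfl⟩
  have eb : (b : ℝ) = (F - E) * s / 5 := by
    rw [hE, hF]; unfold xi eta; linear_combination (-(b : ℝ) / 5) * hs
  have ea : (a : ℝ) = E + (2001 + s) / 2 * ((F - E) * s / 5) := by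
    rw [← eb, hE]; unfold xi; ring
  rw [← hE] at h1 h2
  rw [← hE, ← hF] at hEF
  have hE8 : 10 ^ 8 ≤ E := by linarith
  have hE0 : 0 < E := by linarith
  have hF0 : 0 < F := (pos_iff_pos_of_mul_pos (by rw [hEF]; norm_num)).mp hE0
  have hF1 : F ≤ 1 / 10 ^ 8 := by nlinarith
  have x1e : ((a - 2001 * b : ℤ) : ℝ) = (E + F) / 2 + 2001 / 10 * (s * (E - F)) := by
    push_cast; rw [ea, eb]; linear_combination ((F - E) / 10) * hs
  have y1e : ((-b : ℤ) : ℝ) = s * (E - F) / 5 := by push_cast; rw [eb]; ring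
  have x2e : ((2001998 * b - 2001 * a : ℤ) : ℝ) = s * (E - F) / 2 - 2001 / 2 * (E + F) := by
    push_cast; rw [ea, eb]; linear_combination (-2001 * (F - E) / 10) * hs
  have y2e : ((2001 * b - 2 * a : ℤ) : ℝ) = -(E + F) := by
    push_cast; rw [ea, eb]; linear_combination (-(F - E) / 5) * hs
  have hde : ((a - 2001 * b : ℤ) : ℝ) * ((2001 * b - 2 * a : ℤ) : ℝ)
      - ((2001998 * b - 2001 * a : ℤ) : ℝ) * ((-b : ℤ) : ℝ) = -(E ^ 2 + F ^ 2) := by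
    rw [x1e, y1e, x2e, y2e]; linear_combination (-(E - F) ^ 2 / 10) * hs
  have hpos : 0 < E ^ 2 + F ^ 2 := by positivity
  have g1 : s * (E - F) ≤ 2.237 * E := by nlinarith
  have g2 : 2.2 * E ≤ s * (E - F) := by nlinarith
  obtain ⟨u, hu⟩ : ∃ u : ℝ, u = 1 / (E ^ 2 + F ^ 2) := ⟨_, rfl⟩
  have hud : u * (E ^ 2 + F ^ 2) = 1 := by rw [hu]; field_simp
  obtain ⟨u1, u2, u3⟩ := upper_real s E F u hs h0 hE8 hEF hud
  have hinv : 1 / s = s / 5 := by field_simp; linarith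
  have i2 : -2001 / s = -2001 * (s / 5) := by rw [← hinv]; ring
  have i3 : 1000999 / s = 1000999 * (s / 5) := by rw [← hinv]; ring
  have hdiv : ∀ c : ℝ, c / -(E ^ 2 + F ^ 2) = -c * u := by
    intro c; rw [hu]; field_simp
  refine ⟨a - 2001 * b, -b, 2001998 * b - 2001 * a, 2001 * b - 2 * a, E,
    ⟨a, -1000999 * b, by unfold nf at h3; linear_combination h3⟩,
    ⟨1001 * b - a, 1000 * a - 1000999 * b, by unfold nf at h3; linear_combination h3⟩,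
    ?_, ?_, ?_, ?_, ?_, by linarith, hE8, ?_, ?_, ?_⟩
  · intro h
    have : (((a - 2001 * b) * (2001 * b - 2 * a) - (2001998 * b - 2001 * a) * -b : ℤ) : ℝ) = 0 := by
      exact_mod_cast h
    rw [Int.cast_sub, Int.cast_mul, Int.cast_mul, hde] at this
    linarith
  · rw [x1e, abs_le]; constructor <;> linarith
  · rw [y1e, abs_le]; constructor <;> linarith
  · rw [x2e, abs_le]; constructor <;> linarith
  · rw [y2e, abs_le]; constructor <;> linarith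
  · rw [hde, hdiv, hinv, y1e, y2e]
    refine le_of_eq_of_le (congrArg _ ?_) u1
    linear_combination (-s / 5) * hud
  · rw [hde, hdiv, i2, x1e, y1e, x2e, y2e, ← abs_neg]
    refine le_of_eq_of_le (congrArg _ ?_) u2
    linear_combination (-2001 * s / 5) * hud + (-2 * u) * hEF + ((E - F) ^ 2 * u / 10) * hs
  · rw [hde, hdiv, i3, x1e, x2e, ← abs_neg]
    refine le_of_eq_of_le (congrArg _ ?_) u3
    linear_combination (1000999 * s / 5) * hud + (2001 * u) * hEF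
      + (-2001 * (E - F) ^ 2 * u / 20) * hs

end Pool.Agent.Hb5c5
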